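import Pool.Agent.H72.KE.Ked
import Pool.Agent.H40.D2A.Dns
import Pool.Agent.H56.NB.All
import Pool.Agent.H2.GEN.ChnP

/-!
# The kind of the windows with one contact coordinate and different slopes covers

`dsc_pos`: a function which is nonnegative on a set which is dense near a point, and whose derivative
at the point is not zero, is positive there. `ke_cov`: almost all the windows with one contact
coordinate and different slopes of the coordinates of the base are of the kind `KE`.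
-/

set_option autoImplicit false

namespace Pool.OWN72

open MeasureTheory Set Filter Topology
open Pool.Agent.H49.Ent Pool.Agent.H32.Dense Pool.STK Pool.KA Pool.KSAT Pool.K2S Pool.PB
open Pool.GEN Pool.S6C Pool.STAT Pool.CHT Pool.GRW Pool.PKG
open Pool.TOP (TopS)
open Pool.STR (NumI Rle)
open Pool.JTN (TgP)
open Pool.ISO (ChI)

/-- The set meets every small interval near the point. -/
def Dsc (A : Set ℝ) (g : ℝ) : Prop :=
  ∀ ε : ℝ, 0 < ε → ∃ r₀ : ℝ, 0 < r₀ ∧ ∀ r : ℝ, 0 < r → r < r₀ → ∀ x y : ℝ, g - r ≤ x →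
    x + ε * r ≤ y → y ≤ g + r → ∃ a ∈ A, x < a ∧ a < y

/-- **Positivity at a point** near which the function is nonnegative on a dense set. -/
theorem dsc_pos {A : Set ℝ} {g s : ℝ} (hA : Dsc A g) {f : ℝ → ℝ} (hf : HasDerivAt f s g)
    (hs : s ≠ 0) (h0 : ∀ a ∈ A, 0 ≤ f a) (hg : 0 ≤ f g) : 0 < f g := by
  rcases hg.lt_or_eq with h1 | h1
  · exact h1
  exfalso
  -- the linear approximation
  have h2 : ∃ δ : ℝ, 0 < δ ∧ ∀ a : ℝ, |a - g| < δ → a ≠ g →
      |f a - s * (a - g)| < |s| * |a - g| := by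
    have h3 := (hasDerivAt_iff_isLittleO.1 hf).def (c := |s| / 2) (by positivity)
    obtain ⟨δ, hδ, h4⟩ := Metric.eventually_nhds_iff.1 h3
    refine ⟨δ, hδ, fun a ha hne => ?_⟩
    have h5 := h4 (y := a) (by rw [Real.dist_eq]; exact ha)
    rw [← h1, Real.norm_eq_abs, Real.norm_eq_abs, smul_eq_mul, sub_zero] at h5
    have h6 : 0 < |a - g| := abs_pos.2 (sub_ne_zero.2 hne)
    have h7 : 0 < |s| := abs_pos.2 hs
    have e : f a - s * (a - g) = f a - (a - g) * s := by ring
    rw [e]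
    have := mul_pos h7 h6
    linarith
  obtain ⟨δ, hδ, h3⟩ := h2
  obtain ⟨r₀, hr₀, h4⟩ := hA (1 / 2) (by norm_num)
  obtain ⟨r, hr⟩ : ∃ r, r = min r₀ δ / 2 := ⟨_, rfl⟩
  have hm : 0 < min r₀ δ := lt_min hr₀ hδ
  have hr0 : 0 < r := by rw [hr]; linarith
  have hr1 : r < r₀ := by
    rw [hr]
    linarith [min_le_left r₀ δ]
  have hr2 : r < δ := by
    rw [hr]
    linarith [min_le_right r₀ δ]
  rcases lt_or_gt_of_ne hs with hs' | hs'
  · obtain ⟨a, ha, ha1, ha2⟩ := h4 r hr0 hr1 (g + r / 2) (g + r) (by linarith) (by linarith) le_rfl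
    have h5 := h3 a (by rw [abs_of_pos (by linarith)]; linarith) (by linarith)
    have h6 := (abs_lt.1 h5).2
    rw [abs_of_neg hs', abs_of_pos (by linarith : 0 < a - g)] at h6
    have h7 := h0 a ha
    have e : s * (a - g) + -s * (a - g) = 0 := by ring
    linarith
  · obtain ⟨a, ha, ha1, ha2⟩ := h4 r hr0 hr1 (g - r) (g - r / 2) le_rfl (by linarith)
      (by linarith)
    have h5 := h3 a (by rw [abs_of_neg (by linarith)]; linarith) (by linarith)
    have h6 := (abs_lt.1 h5).2
    rw [abs_of_pos hs', abs_of_neg (by linarith : a - g < 0)] at h6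
    have h7 := h0 a ha
    have e : s * (a - g) + s * -(a - g) = 0 := by ring
    linarith

variable {n : ℕ} {hn : 2 ≤ n} {S : PCl n} {P : ℝ → ℝ → ℝ} {rr : ℝ → ℝ}
  {P' : ℕ → List (Fin n) × Fin n → ℝ → ℝ → ℝ} {Λ : Finset (Fin n) → Fin n → ℝ → ℝ → ℝ}
  {PB : ℕ → List (Fin n) × Fin n → ℝ → ℝ → ℝ} {ρ' : ℝ → ℝ}

/-- The windows where the numbers of the unit balls are continuous are almost all. -/
theorem ctw_ae (hL : LamW S Λ) : (Ctw Λ)ᶜ.Countable := by
  have h1 : (Ctw Λ)ᶜ ⊆ ⋃ p : Finset (Fin n) × Fin n,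
      {w | ¬ ContinuousAt (fun w => Λ p.1 p.2 w 0) w} := by
    intro w hw
    by_contra hcon
    refine hw fun I v => ?_
    by_contra h2
    exact hcon (mem_iUnion.2 ⟨(I, v), h2⟩)
  refine (countable_iUnion fun p => ?_).mono h1
  have hm : Monotone fun w => Λ p.1 p.2 w 0 := fun x y hxy =>
    hL.mono _ _ _ _ _ _ _ (Finset.Subset.refl _) hxy le_rfl
  exact hm.countable_not_continuousAt

/-- The properties hold for smaller constants. -/
theorem EA.anti {c c' : ℝ} {o : Od n} {g : ℝ} (h : EA hn S P P' c o g) (h0 : 0 < c')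
    (hc : c' ≤ c) : EA hn S P P' c' o g where
  cg := hc.trans h.cg
  g1 := by linarith [h.g1]
  slo l h1 h2 := by
    obtain ⟨h3, h4⟩ := h.slo l h1 h2
    refine ⟨by linarith, le_trans (mul_le_mul_of_nonneg_right hc ?_) h4⟩
    linarith
  dlo l h1 h2 := by linarith [h.dlo l h1 h2]
  gap k l h1 h2 h3 := by linarith [h.gap k l h1 h2 h3]
  sld k l h1 h2 h3 := hc.trans (h.sld k l h1 h2 h3)
  sg := by
    obtain ⟨sg, h1, h2⟩ := h.sg
    exact ⟨sg, by linarith, fun w hw hw' => h2 w hw (by linarith)⟩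

/-- The diagonals are above the window, at the good windows. -/
theorem gs_dlo (H : PkT hn S P rr P' Λ PB) (hTop : TopS n) (hF : FZX (n - 1)) {o : Od n} {a : ℝ}
    (ha : a ∈ Gs P rr P' Λ o) {l : ℕ} (hl : l ≤ n - 1) : a ≤ dgN hn P P' o l a := by
  have h0 := ha.1.1.1
  have h1 := ha.1.1.2.1
  rcases hl.lt_or_eq with h2 | h2
  · rw [gs_vs H.toPk hTop hF ha h2]
    exact le_vs H.lam (epo hn o) h1.le _
  · have h3 : dgN hn P P' o l a = P a a := by
      unfold dgN
      rw [if_neg (by omega)]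
    rw [h3]
    exact H.tgs.low () a a h0.le le_rfl h1.le

/-- The diagonals increase with the index, at the good windows. -/
theorem gs_gap (H : PkT hn S P rr P' Λ PB) (hTop : TopS n) (hF : FZX (n - 1)) {o : Od n} {a : ℝ}
    (ha : a ∈ Gs P rr P' Λ o) {k l : ℕ} (hkl : k ≤ l) (hl : l < n - 1) :
    dgN hn P P' o k a ≤ dgN hn P P' o l a := by
  rw [gs_vs H.toPk hTop hF ha hl, gs_vs H.toPk hTop hF ha (by omega)]
  have h1 : Vgr Λ (epo hn o) a := ha.1.1.2.2.1
  exact h1.mono H.lam ha.1.1.2.1.le (by omega)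

/-- **The kind covers** the windows with one contact coordinate and different slopes. -/
theorem ke_cov (H : PkT hn S P rr P' Λ PB) (hTop : TopS n) (hF : FZX (n - 1)) (hρ : Rle rr ρ')
    (h : ℝ) : CovK (KE H hTop hF hρ) h fun o g =>
      OneC n (slo H hTop hF o g) (deriv (fun a => P a a) g) ∧ DiffS hn P P' o g := by
  intro o
  have hct : ∀ᵐ g : ℝ, g ∈ Ctw Λ := by
    have h1 := (ctw_ae (Λ := Λ) H.lam).ae_notMem volume
    filter_upwards [h1] with g hg
    by_contra hcon
    exact hg hcon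
  filter_upwards [hct, dns_pt (Gs P rr P' Λ o ∩ Ctw Λ), H.toPk.chI_ae hTop hF]
    with g kct kdn kch R _ hX
  obtain ⟨⟨hsT, hsO⟩, hdf⟩ := hX
  refine ⟨(), ?_⟩
  have hgm : g ∈ Gs P rr P' Λ o := R.mem
  have hds : Dsc (Gs P rr P' Λ o ∩ Ctw Λ) g := kdn ⟨hgm, kct⟩
  obtain ⟨c₀, sg, hc₀, hc1, r₀, hr₀, kI⟩ := kch o hgm
  have hI := kI (r₀ / 2) (by linarith) (by linarith) c₀ hc₀ le_rfl
  have hg0 := R.g0
  have hg1 := R.g1
  -- the diagonals are differentiable
  have hdif : ∀ l ≤ n - 1, HasDerivAt (dgN hn P P' o l) (slN hn P P' o l g) g := by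
    intro l hl
    have h1 := R.dif l hl
    have h2 : ((H.nk hTop hF).chg hρ H.up).dg o l = dgN hn P P' o l := by
      rcases hl.lt_or_eq with h3 | h3
      · rw [((H.nk hTop hF).chg hρ H.up).dg_lt o h3]
        unfold dgN
        rw [if_pos h3]
        rfl
      · have h4 : ((H.nk hTop hF).chg hρ H.up).dg o l = fun a => P a a := by
          rw [h3]
          exact ((H.nk hTop hF).chg hρ H.up).dg_m o
        rw [h4]
        unfold dgN
        rw [if_neg (by omega)]
    rw [h2] at h1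
    exact h1.hasDerivAt
  -- the slopes
  have hsl : ∀ l, 1 ≤ l → l ≤ n - 1 → 1 < slN hn P P' o l g := by
    intro l h1 h2
    rcases h2.lt_or_eq with h3 | h3
    · have h4 := hsO ⟨l, h3⟩ h1
      rw [slo_slN H] at h4
      exact h4
    · rw [h3, slN_tar]
      exact hsT
  have hlo : ∀ l, 1 ≤ l → l ≤ n - 1 → 0 < dgN hn P P' o l g - g := by
    intro l h1 h2
    refine dsc_pos hds (f := fun a => dgN hn P P' o l a - a)
      ((hdif l h2).sub (hasDerivAt_id g)) (by linarith [hsl l h1 h2]) (fun a ha => ?_) ?_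
    · linarith [gs_dlo H hTop hF ha.1 h2]
    · show 0 ≤ dgN hn P P' o l g - g
      linarith [gs_dlo H hTop hF hgm h2]
  have hgp : ∀ k l, 1 ≤ k → k < l → l < n - 1 →
      0 < dgN hn P P' o l g - dgN hn P P' o k g := by
    intro k l h1 h2 h3
    refine dsc_pos hds (f := fun a => dgN hn P P' o l a - dgN hn P P' o k a)
      ((hdif l h3.le).sub (hdif k (by omega))) (sub_ne_zero.2 (hdf k l h1 h2 h3).symm)
      (fun a ha => ?_) ?_
    · linarith [gs_gap H hTop hF ha.1 h2.le h3]
    · show 0 ≤ dgN hn P P' o l g - dgN hn P P' o k g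
      linarith [gs_gap H hTop hF hgm h2.le h3]
  -- the constants
  obtain ⟨c₁, hc₁, k1⟩ := pos_fin (Finset.Icc 1 (n - 1))
    (f := fun l => min (min (slN hn P P' o l g - 1) (1 / slN hn P P' o l g))
      (dgN hn P P' o l g - g)) fun l hl => by
      obtain ⟨h1, h2⟩ := Finset.mem_Icc.1 hl
      have h3 := hsl l h1 h2
      exact lt_min (lt_min (by linarith) (by positivity)) (hlo l h1 h2)
  obtain ⟨c₂, hc₂, k2⟩ := pos_fin ((Finset.range (n - 1) ×ˢ Finset.range (n - 1)).filter
      fun p : ℕ × ℕ => 1 ≤ p.1 ∧ p.1 < p.2)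
    (f := fun p : ℕ × ℕ => min (dgN hn P P' o p.2 g - dgN hn P P' o p.1 g)
      |slN hn P P' o p.1 g - slN hn P P' o p.2 g|) fun p hp => by
      obtain ⟨h1, h2, h3⟩ := Finset.mem_filter.1 hp
      have h4 := Finset.mem_range.1 (Finset.mem_product.1 h1).2
      exact lt_min (hgp _ _ h2 h3 h4) (abs_pos.2 (sub_ne_zero.2 (hdf _ _ h2 h3 h4)))
  obtain ⟨c, hc⟩ : ∃ c, c = min (min c₁ c₂) (min (min g (1 - g)) (min c₀ (4 * r₀))) := ⟨_, rfl⟩
  have m1 : c ≤ c₁ := by rw [hc]; exact (min_le_left _ _).trans (min_le_left _ _)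
  have m2 : c ≤ c₂ := by rw [hc]; exact (min_le_left _ _).trans (min_le_right _ _)
  have m3 : c ≤ g := by
    rw [hc]; exact (min_le_right _ _).trans ((min_le_left _ _).trans (min_le_left _ _))
  have m4 : c ≤ 1 - g := by
    rw [hc]; exact (min_le_right _ _).trans ((min_le_left _ _).trans (min_le_right _ _))
  have m5 : c ≤ c₀ := by
    rw [hc]; exact (min_le_right _ _).trans ((min_le_right _ _).trans (min_le_left _ _))
  have m6 : c ≤ 4 * r₀ := by
    rw [hc]; exact (min_le_right _ _).trans ((min_le_right _ _).trans (min_le_right _ _))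
  have hc0 : 0 < c := by
    rw [hc]
    exact lt_min (lt_min hc₁ hc₂) (lt_min (lt_min hg0 (by linarith)) (lt_min hc₀ (by linarith)))
  have hEA : EA hn S P P' c o g :=
    { cg := m3
      g1 := by linarith
      slo := fun l h1 h2 => by
        have h3 := k1 l (Finset.mem_Icc.2 ⟨h1, h2⟩)
        have h4 : c₁ ≤ slN hn P P' o l g - 1 :=
          h3.trans ((min_le_left _ _).trans (min_le_left _ _))
        have h5 : c₁ ≤ 1 / slN hn P P' o l g :=
          h3.trans ((min_le_left _ _).trans (min_le_right _ _))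
        have h6 := hsl l h1 h2
        refine ⟨by linarith, ?_⟩
        have h7 := mul_le_mul_of_nonneg_right (m1.trans h5)
          (by linarith : 0 ≤ slN hn P P' o l g)
        have h8 : 1 / slN hn P P' o l g * slN hn P P' o l g = 1 := by
          field_simp
        linarith
      dlo := fun l h1 h2 => by
        have h3 := (k1 l (Finset.mem_Icc.2 ⟨h1, h2⟩)).trans (min_le_right _ _)
        linarith
      gap := fun k l h1 h2 h3 => by
        have h4 := (k2 (k, l) (Finset.mem_filter.2 ⟨Finset.mem_product.2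
          ⟨Finset.mem_range.2 (by omega), Finset.mem_range.2 h3⟩, h1, h2⟩)).trans (min_le_left _ _)
        simp only at h4
        linarith
      sld := fun k l h1 h2 h3 => by
        have h4 := (k2 (k, l) (Finset.mem_filter.2 ⟨Finset.mem_product.2
          ⟨Finset.mem_range.2 (by omega), Finset.mem_range.2 h3⟩, h1, h2⟩)).trans (min_le_right _ _)
        exact m2.trans h4
      sg := ⟨sg, by linarith [hI.sg1], fun w hw hw' =>
        ⟨fun l hl => hI.bd l hl w hw (by linarith), hI.bdN w hw (by linarith),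
          fun hW => hI.tg w hW hw (by linarith)⟩⟩ }
  refine ⟨c, hc0, fun c' h0 h1 => hEA.anti h0 h1, fun e he => ?_⟩
  -- the scales
  obtain ⟨r₁, hr₁, k3⟩ := hds (e ^ 2) (by positivity)
  obtain ⟨δ, hδ, k4⟩ : ∃ δ : ℝ, 0 < δ ∧ ∀ l ∈ Finset.range (n - 1 + 1), ∀ w : ℝ, |w - g| < δ →
      |dgN hn P P' o l w - dgN hn P P' o l g - slN hn P P' o l g * (w - g)| ≤
        e ^ 2 * |w - g| := by
    have h1 := scl_fin (Finset.range (n - 1 + 1)) (Ψ := fun l r => ∀ w : ℝ, |w - g| ≤ r →
      |dgN hn P P' o l w - dgN hn P P' o l g - slN hn P P' o l g * (w - g)| ≤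
        e ^ 2 * |w - g|) fun l hl => by
      have hl' : l ≤ n - 1 := by
        have := Finset.mem_range.1 hl
        omega
      have h3 := (hasDerivAt_iff_isLittleO.1 (hdif l hl')).def (c := e ^ 2) (by positivity)
      obtain ⟨δ, hδ, h4⟩ := Metric.eventually_nhds_iff.1 h3
      refine ⟨δ, hδ, fun r hr hr' w hw => ?_⟩
      have h5 := h4 (y := w) (by rw [Real.dist_eq]; linarith)
      rw [Real.norm_eq_abs, Real.norm_eq_abs, smul_eq_mul] at h5
      rwa [mul_comm (slN hn P P' o l g) (w - g)]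
    obtain ⟨δ, hδ, h2⟩ := h1
    exact ⟨δ / 2, by linarith, fun l hl w hw => h2 (δ / 2) (by linarith) (by linarith) l hl w
      hw.le⟩
  refine ⟨min (e * r₁) (e * δ), lt_min (mul_pos he hr₁) (mul_pos he hδ), fun r hr hr' => ?_⟩
  have n1 : r / e < r₁ := by
    rw [div_lt_iff₀ he]
    linarith [hr'.trans_le (min_le_left _ _), mul_comm e r₁]
  have n2 : r / e < δ := by
    rw [div_lt_iff₀ he]
    linarith [hr'.trans_le (min_le_right _ _), mul_comm e δ]
  have n0 : 0 < r / e := div_pos hr he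
  have hwr : ∀ w : ℝ, |w - g| * (e * r) ≤ r ^ 2 → |w - g| ≤ r / e := by
    intro w hw
    rw [le_div_iff₀ he]
    have h1 : (|w - g| * e) * r ≤ r * r := by
      have e1 : (|w - g| * e) * r = |w - g| * (e * r) := by ring
      have e2 : r * r = r ^ 2 := by ring
      rw [e1, e2]
      exact hw
    exact le_of_mul_le_mul_right h1 hr
  have e3 : e ^ 2 * (r / e) = e * r := by
    field_simp
  refine ⟨fun l hl w hw => ?_, fun x y hx hy hxy => ?_⟩
  · have h1 := hwr w hw
    refine (k4 l (Finset.mem_range.2 (by omega)) w (h1.trans_lt n2)).trans ?_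
    rw [← e3]
    exact mul_le_mul_of_nonneg_left h1 (by positivity)
  · have h1 := (abs_le.1 (hwr x hx)).1
    have h2 := (abs_le.1 (hwr y hy)).2
    exact k3 (r / e) n0 n1 x y (by linarith) (by rw [e3]; exact hxy) (by linarith)

end Pool.OWN72
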