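import Pool.Agent.H96.EXT.Num

/-!
# The number of the additional coordinate, from below, with a radius

`num_tgr`: `num_tgt` (helper96) with the radius `r'` of the gradients, `sg < r'`. The proofs are those
of helper96 (`mem_n`, `lb_ex`, `num_tgt`) with the balls of radius `2 ^ (-qr)`.
-/

set_option autoImplicit false

namespace Pool.EXT96

open Finset Real MvPolynomial
open Pool.Agent.H49.Ent Pool.Agent.H32.Dense Pool.STK Pool.KA Pool.KSAT Pool.K2S Pool.PB Pool.GEN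
open Pool.M3F
open Pool.FLF (Fam.sub)

variable {m J : ℕ}

section

open Pool.STAT Pool.STAT.CLO Pool.GRD
open Pool.PB.Trl (rt rt_mem t_rt)

/-- **The closed polynomial of the last coordinate of a chain**, with the velocities and with the
gradients on the balls of radius `2 ^ (-qr)`. -/
theorem mem_nr (m i K : ℕ) : ∃ (Z : ℝ) (D : ℕ), 1 ≤ Z ∧ ∀ (J : ℕ) (F : Fam m J)
    (c : ℕ → Fin m) (w e Gm qr : ℕ) (g : ℕ → ℕ) (A : F.Ω → Prop) (θ X : ℝ), w ≤ J → w ≤ qr →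
    Inj c (i + 1) → ChN F c (i + 1) (fun _ => K) w w e g A → (∀ l ≤ i, g l ≤ Gm) →
    0 < Pe F.p A → 0 ≤ θ →
    (∀ (B : F.Ω → Prop) (hB : 0 < Pe F.p B), Sub B A → Pe F.p A ≤ Z * Pe F.p B →
      (Fam.sub F B hB).Tm θ) →
    Z * (θ + 1) ≤ ((J : ℝ) - w) * Real.log 2 → Z * Real.exp (Z * (θ + 1)) ≤ X →
    X * 2 ^ (e + Gm) ≤ 2 ^ qr →
    ∃ (z : PtT F → LV) (z' : LnT F → LV) (G : LV → MvPolynomial (Option (Fin m)) ℝ)
      (B : F.Ω → Prop), Sub B A ∧ Pe F.p A ≤ Z * Pe F.p B ∧ (∀ v, (G v).totalDegree ≤ D) ∧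
      (∀ v, ∀ b b' : Option (Fin m) → ℝ, b none = b' none →
        (∀ k ∈ (range i).image c, b (some k) = b' (some k)) → eval b (G v) = eval b' (G v)) ∧
      (∀ ω, B ω → z (ptr F J ω) = z' (slam F w ω)) ∧
      (∀ ω, B ω → |F.x ω (c i) - eval (bt F ω) (G (z' (slam F w ω)))| ≤ X / 2 ^ g i) ∧
      (∀ ω, B ω → |F.d ω (c i) -
        ∑ o, bd F ω o * eval (bt F ω) (pderiv o (G (z' (slam F w ω))))| ≤ X / 2 ^ g i * 2 ^ w) ∧
      ∀ ω, B ω → ∀ b : Option (Fin m) → ℝ, (∀ o, |b o - bt F ω o| ≤ 1 / 2 ^ qr) → ∀ o,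
        |eval b (pderiv o (G (z' (slam F w ω))))| ≤
          X * (1 + 2 ^ (e + Gm) / 2 ^ g i + 2 ^ w / 2 ^ g i) := by
  classical
  obtain ⟨Z₁, D, hZ₁, hD, hline⟩ := line_n m i K
  obtain ⟨Z₂, hZ₂, hball⟩ := ball_core (i + 1) D (by omega)
  obtain ⟨C₀, M, hC₀, hgrad⟩ := grad_n (i + 1) K D hD
  obtain ⟨Z₃, hZ₃, hext⟩ := ext_int (D + 1)
  have hi0 : (0 : ℝ) ≤ i := Nat.cast_nonneg i
  obtain ⟨Y, hY⟩ : ∃ Y : ℝ, Y = (2 * i + 6) * (C₀ * (2 * (Z₂ * Z₁)) ^ M) +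
      (4 * Z₂ * (Z₂ * Z₁) + Z₃ * Z₁) := ⟨_, rfl⟩
  have hY0 : 0 ≤ (2 * (i : ℝ) + 6) * (C₀ * (2 * (Z₂ * Z₁)) ^ M) := by positivity
  have hY1 : 0 ≤ 4 * Z₂ * (Z₂ * Z₁) + Z₃ * Z₁ := by positivity
  have hM0 : (0 : ℝ) ≤ M := Nat.cast_nonneg M
  obtain ⟨Z, hZ⟩ : ∃ Z : ℝ, Z = Z₁ * (M + 1) + Y := ⟨_, rfl⟩
  have hZZ₁ : Z₁ * (M + 1) ≤ Z := by rw [hZ]; linarith
  have hZ₁M : Z₁ ≤ Z₁ * (M + 1) := le_mul_of_one_le_right (by linarith) (by linarith)
  have hZY : Y ≤ Z := by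
    have : 0 ≤ Z₁ * ((M : ℝ) + 1) := by positivity
    rw [hZ]
    linarith
  refine ⟨Z, D, by linarith, ?_⟩
  intro J F c w e Gm qr g A θ X hw hwq hc hch hGm hA hθ hTm hJ hX hXJ
  obtain ⟨G, H, h⟩ := hch
  obtain ⟨z, z', P, B, hBA, hPe, htri, hdeg, hcls, hnr, hB⟩ := hline J F c w e g A θ G H hw hc h
    hA hθ (fun B hB hBA hP => hTm B hB hBA (hP.trans
      (mul_le_mul_of_nonneg_right (by linarith) (Pe_nonneg F.isLaw _))))
    (le_trans (mul_le_mul_of_nonneg_right (by linarith) (by linarith)) hJ)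
  obtain ⟨E, hE⟩ : ∃ E : ℝ, E = Real.exp (Z₁ * (θ + 1)) := ⟨_, rfl⟩
  have hE1 : 1 ≤ E := by
    rw [hE, Real.one_le_exp_iff]
    exact mul_nonneg (by linarith) (by linarith)
  obtain ⟨ρ₀, hρ₀⟩ : ∃ ρ₀ : ℝ, ρ₀ = Z₁ * E := ⟨_, rfl⟩
  rw [← hE, ← hρ₀] at hB
  have hρ1 : 1 ≤ ρ₀ := by
    rw [hρ₀]
    exact one_le_mul_of_one_le_of_one_le hZ₁ hE1
  obtain ⟨R, hR⟩ : ∃ R : ℝ, R = Z₂ * ρ₀ := ⟨_, rfl⟩
  have hR1 : 1 ≤ R := by
    rw [hR]
    exact one_le_mul_of_one_le_of_one_le hZ₂ hρ1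
  obtain ⟨Θ, hΘ⟩ : ∃ Θ : ℝ, Θ = C₀ * (2 * R) ^ M := ⟨_, rfl⟩
  have hΘ1 : 1 ≤ Θ := by
    rw [hΘ]
    exact one_le_mul_of_one_le_of_one_le hC₀ (one_le_pow₀ (by linarith))
  -- all constants
  have hbig : (2 * i + 6) * Θ + (4 * Z₂ * R + Z₃ * ρ₀) ≤ X := by
    refine le_trans ?_ hX
    have h1 : Real.exp (Z₁ * (M + 1) * (θ + 1)) ≤ Real.exp (Z * (θ + 1)) :=
      Real.exp_le_exp.2 (mul_le_mul_of_nonneg_right hZZ₁ (by linarith))
    have h2 : Real.exp (Z₁ * (M + 1) * (θ + 1)) = E ^ (M + 1) := by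
      rw [hE, ← Real.exp_nat_mul]
      congr 1
      push_cast
      ring
    have h3 : (2 * i + 6) * Θ ≤ (2 * i + 6) * (C₀ * (2 * (Z₂ * Z₁)) ^ M) * E ^ (M + 1) := by
      have e1 : (2 * i + 6) * Θ = (2 * i + 6) * (C₀ * (2 * (Z₂ * Z₁)) ^ M) * E ^ M := by
        rw [hΘ, hR, hρ₀]
        have : 2 * (Z₂ * (Z₁ * E)) = 2 * (Z₂ * Z₁) * E := by ring
        rw [this, mul_pow]
        ring
      rw [e1]
      exact mul_le_mul_of_nonneg_left (pow_le_pow_right₀ hE1 (by omega)) hY0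
    have h4 : 4 * Z₂ * R + Z₃ * ρ₀ ≤ (4 * Z₂ * (Z₂ * Z₁) + Z₃ * Z₁) * E ^ (M + 1) := by
      have e1 : 4 * Z₂ * R + Z₃ * ρ₀ = (4 * Z₂ * (Z₂ * Z₁) + Z₃ * Z₁) * E ^ 1 := by
        rw [hR, hρ₀]
        ring
      rw [e1]
      exact mul_le_mul_of_nonneg_left (pow_le_pow_right₀ hE1 (by omega)) hY1
    calc (2 * i + 6) * Θ + (4 * Z₂ * R + Z₃ * ρ₀) ≤ Y * E ^ (M + 1) := by
          rw [hY]
          linarith
      _ ≤ Z * Real.exp (Z * (θ + 1)) := by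
          rw [← h2]
          exact mul_le_mul hZY h1 (Real.exp_pos _).le (by linarith)
  have hiΘ : (i : ℝ) * Θ ≥ 0 := by positivity
  have hZR : 0 ≤ 4 * Z₂ * R := by positivity
  have hZρ : 0 ≤ Z₃ * ρ₀ := by positivity
  have hΘX : (2 * i + 6) * Θ ≤ X := by linarith only [hbig, hZR, hZρ]
  have hΘe : (2 * i + 6) * Θ = 2 * (i * Θ) + 6 * Θ := by ring
  rw [hΘe] at hbig hΘX
  have hX1 : 1 ≤ X := by linarith only [hΘX, hiΘ, hΘ1]
  have hX0 : 0 ≤ X := by linarith only [hX1]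
  have hZρX : Z₃ * ρ₀ ≤ X := by linarith only [hbig, hiΘ, hΘ1, hZR]
  have hρZ : ρ₀ ≤ Z₃ * ρ₀ := le_mul_of_one_le_left (by linarith only [hρ1]) hZ₃
  have hρX : ρ₀ ≤ X := by linarith only [hZρX, hρZ]
  have hZRX : 4 * Z₂ * R ≤ X := by linarith only [hbig, hiΘ, hΘ1, hZρ]
  -- the exponents
  have hgG : ∀ l' ≤ i, ∀ l ≤ l', (2 : ℝ) ^ (e + nlp g l l') ≤ 2 ^ (e + Gm) / 2 ^ g l' := by
    intro l' hl' l hl
    rw [le_div_iff₀ (by positivity), ← pow_add]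
    refine pow_le_pow_right₀ (by norm_num) ?_
    have h1 := nlp_add (g := g) hl
    have h2 : (Finset.Icc l l').sup g ≤ Gm := Finset.sup_le fun j hj =>
      hGm j ((Finset.mem_Icc.1 hj).2.trans hl')
    omega
  refine ⟨z, z', fun v => GRD.tb c (P v (i + 1)), B, hBA, hPe.trans
    (mul_le_mul_of_nonneg_right (by linarith) (Pe_nonneg F.isLaw _)),
    fun v => (tb_deg c _).trans (hdeg _ _), fun v b b' h0 hb => tb_dep c (htri v (i + 1)) h0 hb,
    hcls, fun ω hω => ?_, fun ω hω => ?_, fun ω hω => ?_⟩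
  · have h1 := hB ω hω i le_rfl (rt F w ω) (rt_mem F w ω)
    rw [eval_dv F hw (fun s (_ : Fin m) => GRD.tb c (P (z' s) (i + 1)))] at h1
    exact h1.trans (div_le_div_of_nonneg_right hρX (by positivity))
  · have h1 := (hext _ _ (natDegree_dv w (G := fun s (_ : Fin m) => GRD.tb c (P (z' s) (i + 1)))
      (fun s _ => (tb_deg c _).trans (hdeg _ _)) (c i) (slam F w ω))
      (hB ω hω i le_rfl) (rt F w ω) (by
        have := rt_mem F w ω
        rw [abs_of_nonneg this.1]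
        linarith [this.2])).2
    rw [der_dv F hw, abs_mul, abs_of_pos (by positivity : (0 : ℝ) < 1 / 2 ^ w), one_div,
      inv_mul_le_iff₀ (by positivity)] at h1
    refine h1.trans ?_
    rw [mul_comm]
    refine mul_le_mul_of_nonneg_right ?_ (by positivity)
    rw [← mul_div_assoc]
    exact div_le_div_of_nonneg_right hZρX (by positivity)
  -- the ball
  intro b hb o
  obtain ⟨v, hv⟩ : ∃ v, v = z' (slam F w ω) := ⟨_, rfl⟩
  have hnrv := hnr ω hω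
  rw [← hv] at hnrv
  show |eval b (pderiv o (GRD.tb c (P (z' (slam F w ω)) (i + 1))))| ≤ _
  rw [← hv]
  obtain ⟨T, hT⟩ : ∃ T : ℝ, T = (F.T1 w ω : ℝ) := ⟨_, rfl⟩
  have h2J : (0 : ℝ) < 2 ^ qr := by positivity
  have h2w : (0 : ℝ) < 2 ^ w := by positivity
  have hwJ : (2 : ℝ) ^ w ≤ 2 ^ qr := pow_le_pow_right₀ (by norm_num) hwq
  obtain ⟨Hf, hHf⟩ : ∃ Hf : ℕ → ℝ, Hf = fun j => Θ * (2 ^ (e + Gm) / 2 ^ gg w g j) := ⟨_, rfl⟩
  have hHf0 : ∀ j, 0 ≤ Hf j := fun j => by rw [hHf]; positivity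
  have hHfi : Hf (i + 1) = Θ * (2 ^ (e + Gm) / 2 ^ g i) := by
    rw [hHf]
    have h4 : gg w g (i + 1) = g i := if_neg (by omega)
    simp only [h4]
  -- the gradients in the boxes
  have hgr : ∀ j ≤ i + 1, ∀ b : ℕ → ℝ, Bxr (2 * (Z₂ * ρ₀)) (gg w g) (P v) j b → ∀ l, 1 ≤ l →
      l < j → |eval b (pderiv l (P v j))| ≤ Hf j := by
    intro j hj b hb l hl1 hl
    obtain ⟨j, rfl⟩ : ∃ j', j = j' + 1 := ⟨j - 1, by omega⟩
    obtain ⟨l, rfl⟩ : ∃ l', l = l' + 1 := ⟨l - 1, by omega⟩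
    rw [← hR] at hb
    have h1 := hgrad m J F c w e g (G (ptr F J ω)) (P v) ω hw hc (fun i _ => h.degG _ i)
      (fun i => h.depG _ i) (fun i hi b hb l hl => h.lip ω (hBA ω hω) i hi b hb l hl) (htri v)
      (hdeg v) hnrv (2 * R) (by linarith) j b hb (by omega) l (by omega)
    refine h1.trans ?_
    rw [← hΘ, hHf]
    have h4 : gg w g (j + 1) = g j := if_neg (by omega)
    simp only [h4]
    exact mul_le_mul_of_nonneg_left (hgG j (by omega) l (by omega)) (by linarith)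
  have hsm : ∀ j ≤ i + 1, 1 ≤ j → 2 / 2 ^ qr + j * (2 / 2 ^ qr * Hf j) ≤
      Z₂ * ρ₀ / 2 ^ gg w g j := by
    intro j hj hj1
    obtain ⟨j, rfl⟩ : ∃ j', j = j' + 1 := ⟨j - 1, by omega⟩
    have h4 : gg w g (j + 1) = g j := if_neg (by omega)
    rw [hHf]
    simp only [h4]
    rw [← hR, le_div_iff₀ (by positivity)]
    have h5 : (2 : ℝ) ^ g j ≤ 2 ^ (e + Gm) :=
      pow_le_pow_right₀ (by norm_num) ((hGm j (by omega)).trans (by omega))
    have h6 : (((j + 1 : ℕ) : ℝ)) ≤ i + 1 := by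
      push_cast
      have : (j : ℝ) ≤ i := by exact_mod_cast (by omega : j ≤ i)
      linarith
    have h7 : (2 / 2 ^ qr + ((j + 1 : ℕ) : ℝ) * (2 / 2 ^ qr * (Θ * (2 ^ (e + Gm) / 2 ^ g j)))) *
        2 ^ g j = (2 * 2 ^ g j + ((j + 1 : ℕ) : ℝ) * (2 * (Θ * 2 ^ (e + Gm)))) / 2 ^ qr := by
      field_simp
    rw [h7, div_le_iff₀ h2J]
    have h8 : (0 : ℝ) ≤ 2 * (Θ * 2 ^ (e + Gm)) := by positivity
    have h9 := mul_le_mul_of_nonneg_right h6 h8
    have h10 : (2 * 2 ^ g j + ((j + 1 : ℕ) : ℝ) * (2 * (Θ * 2 ^ (e + Gm)))) ≤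
        X * 2 ^ (e + Gm) := by
      have h11 : (0 : ℝ) < 2 ^ (e + Gm) := by positivity
      have h12 : (2 + (i + 1) * (2 * Θ)) * 2 ^ (e + Gm) ≤ X * 2 ^ (e + Gm) := by
        refine mul_le_mul_of_nonneg_right ?_ h11.le
        have e1 : 2 + ((i : ℝ) + 1) * (2 * Θ) = 2 + 2 * (i * Θ) + 2 * Θ := by ring
        rw [e1]
        linarith only [hΘX, hΘ1]
      have e2 : (2 + ((i : ℝ) + 1) * (2 * Θ)) * 2 ^ (e + Gm) =
          2 * 2 ^ (e + Gm) + (i + 1) * (2 * (Θ * 2 ^ (e + Gm))) := by ring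
      rw [e2] at h12
      linarith only [h12, h9, h5]
    exact h10.trans (hXJ.trans (le_mul_of_one_le_left h2J.le hR1))
  -- the line
  have hΦ0 : P v 0 = C (T / 2 ^ w) := by
    rw [hnrv.1]
    unfold Gs
    rw [sy_zero, tp_eq, hT]
  have hlu0 : lu F c ω 0 = 0 := if_pos rfl
  have hld0 : ld F c ω 0 = 1 := if_pos rfl
  have hldb : ∀ j, |ld F c ω j| ≤ 1 := by
    intro j
    unfold ld
    split_ifs
    · rw [abs_one]
    · exact F.dir ω _
  have hlin : ∀ j, 1 ≤ j → j ≤ i + 1 → ∀ τ ∈ Set.Icc (0 : ℝ) 1,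
      |eval (fun l => lu F c ω l + ld F c ω l * ((T + τ) / 2 ^ w)) (P v j) -
        (lu F c ω j + ld F c ω j * ((T + τ) / 2 ^ w))| ≤ ρ₀ / 2 ^ gg w g j := by
    intro j hj1 hj τ hτ
    obtain ⟨j, rfl⟩ : ∃ j', j = j' + 1 := ⟨j - 1, by omega⟩
    have h1 := hB ω hω j (by omega) τ hτ
    rw [dv_line F c w (fun s => P (z' s) (j + 1)) j ω τ, ← hv, ← hT] at h1
    have h4 : gg w g (j + 1) = g j := if_neg (by omega)
    rw [h4, abs_sub_comm]
    exact h1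
  obtain ⟨τ, hτ⟩ : ∃ τ : ℝ, τ = b none * 2 ^ w - T := ⟨_, rfl⟩
  have htn : bt F ω none = F.t ω := rfl
  have hτ2 : |τ| ≤ 2 := by
    have h1 := hb none
    rw [htn, t_rt F hw ω] at h1
    have e1 : ((slam F w ω).2.2 : ℝ) = T := by rw [hT]; rfl
    rw [e1] at h1
    have h2 : (1 : ℝ) / 2 ^ qr ≤ 1 / 2 ^ w := one_div_le_one_div_of_le h2w hwJ
    have h3 : |τ - rt F w ω| ≤ 1 := by
      have e2 : τ - rt F w ω = (b none - (T + rt F w ω) / 2 ^ w) * 2 ^ w := by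
        rw [hτ]
        field_simp
        ring
      rw [e2, abs_mul, abs_of_pos h2w]
      calc |b none - (T + rt F w ω) / 2 ^ w| * 2 ^ w ≤ 1 / 2 ^ w * 2 ^ w :=
            mul_le_mul_of_nonneg_right (h1.trans h2) h2w.le
        _ = 1 := by field_simp
    have h4 := rt_mem F w ω
    rw [abs_le] at h3 ⊢
    constructor <;> linarith [h3.1, h3.2, h4.1, h4.2]
  have hb0 : b none = (T + τ) / 2 ^ w := by
    rw [hτ]
    field_simp
    ring
  have h1 := (hball (P v) (gg w g) w (lu F c ω) (ld F c ω) T ρ₀ (2 / 2 ^ qr) Hf (htri v) (hdeg v)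
    hlu0 hld0 hldb (if_pos rfl) hΦ0 hρ1 (by positivity) hHf0 hlin hgr hsm τ hτ2).2 (pb c b)
    (by
      show (if 0 = 0 then b none else _) = _
      rw [if_pos rfl]
      exact hb0) (by
      intro j hj1 hj
      obtain ⟨j, rfl⟩ : ∃ j', j = j' + 1 := ⟨j - 1, by omega⟩
      have e1 : pb c b (j + 1) = b (some (c j)) := if_neg (by omega)
      have e2 : lu F c ω (j + 1) = F.u ω (c j) := if_neg (by omega)
      have e3 : ld F c ω (j + 1) = F.d ω (c j) := if_neg (by omega)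
      rw [e1, e2, e3, ← hb0]
      have h2 := hb (some (c j))
      have h3 := hb none
      rw [htn] at h3
      have e4 : bt F ω (some (c j)) = F.u ω (c j) + F.t ω * F.d ω (c j) := rfl
      rw [e4] at h2
      have h4 : |F.d ω (c j) * (b none - F.t ω)| ≤ 1 * (1 / 2 ^ qr) := by
        rw [abs_mul]
        exact mul_le_mul (F.dir ω _) h3 (abs_nonneg _) zero_le_one
      rw [one_mul] at h4
      have e5 : b (some (c j)) - (F.u ω (c j) + F.d ω (c j) * b none) =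
          (b (some (c j)) - (F.u ω (c j) + F.t ω * F.d ω (c j))) -
            F.d ω (c j) * (b none - F.t ω) := by ring
      have e6 : (2 : ℝ) / 2 ^ qr = 1 / 2 ^ qr + 1 / 2 ^ qr := by ring
      rw [e5, e6]
      exact (abs_sub _ _).trans (add_le_add h2 h4))
  rw [← hR] at h1
  obtain ⟨hbx, htime⟩ := h1
  have hq0 : (0 : ℝ) ≤ 2 ^ (e + Gm) / 2 ^ g i := by positivity
  have hq1 : (0 : ℝ) ≤ 2 ^ w / 2 ^ g i := by positivity
  have hfin0 : Θ * (2 ^ (e + Gm) / 2 ^ g i) ≤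
      X * (1 + 2 ^ (e + Gm) / 2 ^ g i + 2 ^ w / 2 ^ g i) := by
    have h2 : Θ ≤ X := by linarith only [hΘX, hiΘ, hΘ1]
    have h3 := mul_le_mul_of_nonneg_right h2 hq0
    have h4 := mul_nonneg hX0 hq1
    have e1 : X * (1 + 2 ^ (e + Gm) / 2 ^ g i + 2 ^ w / 2 ^ g i) =
        X + X * (2 ^ (e + Gm) / 2 ^ g i) + X * (2 ^ w / 2 ^ g i) := by ring
    rw [e1]
    linarith only [h3, h4, hX0]
  by_cases ho : ∃ l < i + 1, vo c l = o
  · obtain ⟨l, hl, rfl⟩ := ho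
    rw [pd_tb_at hc (by omega) (htri v (i + 1)) hl b]
    rcases Nat.eq_zero_or_pos l with rfl | hl1
    · refine htime.trans ?_
      have h4 : gg w g (i + 1) = g i := if_neg (by omega)
      rw [hHfi, h4]
      have e1 : Z₂ * (2 * R) / 2 ^ g i * 2 ^ w = 2 * Z₂ * R * (2 ^ w / 2 ^ g i) := by ring
      rw [e1]
      push_cast
      have h6 : ((i : ℝ) + 1) * Θ ≤ X := by
        have e3 : ((i : ℝ) + 1) * Θ = i * Θ + Θ := by ring
        rw [e3]
        linarith only [hΘX, hiΘ, hΘ1]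
      have h7 : 2 * Z₂ * R ≤ X := by
        have e3 : 4 * Z₂ * R = 2 * (2 * Z₂ * R) := by ring
        rw [e3] at hZRX hZR
        linarith only [hZRX, hZR]
      have h8 := mul_le_mul_of_nonneg_right h6 hq0
      have h9 := mul_le_mul_of_nonneg_right h7 hq1
      have e3 : X * (1 + 2 ^ (e + Gm) / 2 ^ g i + 2 ^ w / 2 ^ g i) =
          X + X * (2 ^ (e + Gm) / 2 ^ g i) + X * (2 ^ w / 2 ^ g i) := by ring
      have e4 : ((i : ℝ) + 1) * (Θ * (2 ^ (e + Gm) / 2 ^ g i)) =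
          ((i : ℝ) + 1) * Θ * (2 ^ (e + Gm) / 2 ^ g i) := by ring
      rw [e3, e4]
      linarith only [h8, h9, hX1]
    · refine (hgr (i + 1) le_rfl (pb c b) (by rw [← hR]; exact hbx) l hl1 hl).trans ?_
      rw [hHfi]
      exact hfin0
  · push Not at ho
    rw [pd_tb_ne (htri v (i + 1)) ho, abs_zero]
    positivity

end

section

open Pool.S6C
open Pool.STAT.CLO (LV Inj)
open Pool.EXTC (exC exSt)

/-- **Closed labels of the additional coordinate.** -/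
theorem lb_exr {F : Fam m J} {k : Fin m} {s : ℕ} {I : Finset (Fin m)} {D w E P qr : ℕ} {Y Y' : ℝ}
    {B : F.Ω → Prop} (z : PtT F → LV) (z' : LnT F → LV)
    (G : LV → MvPolynomial (Option (Fin m)) ℝ) (hdeg : ∀ v, (G v).totalDegree ≤ D)
    (hdep : ∀ v, ∀ b b' : Option (Fin m) → ℝ, b none = b' none →
      (∀ k ∈ I, b (some k) = b' (some k)) → eval b (G v) = eval b' (G v))
    (hcls : ∀ ω, B ω → z (ptr F J ω) = z' (slam F w ω))
    (hpos : ∀ ω, B ω → |F.x ω k - eval (bt F ω) (G (z' (slam F w ω)))| ≤ Y)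
    (hvel : ∀ ω, B ω → |F.d ω k -
      ∑ o, bd F ω o * eval (bt F ω) (pderiv o (G (z' (slam F w ω))))| ≤ Y * 2 ^ w)
    (hlip : ∀ ω, B ω → ∀ b : Option (Fin m) → ℝ, (∀ o, |b o - bt F ω o| ≤ 1 / 2 ^ qr) → ∀ o,
      |eval b (pderiv o (G (z' (slam F w ω))))| ≤ Y')
    (hY : Y / 2 ^ s ≤ 1 / 2 ^ P) (hY' : Y' / 2 ^ s ≤ 2 ^ E) :
    Lb (Pool.M3F.exF F k s) (I.map Fin.castSuccEmb) (Fin.last m) D E J w qr P B := by
  classical
  have h2s : (0 : ℝ) < 2 ^ s := by positivity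
  have hx : ∀ ω : F.Ω, (Pool.M3F.exF F k s).x ω (Fin.last m) = F.x ω k / 2 ^ s := fun ω => by
    rw [exF_x, sn_last]
  have hd : ∀ ω : F.Ω, (Pool.M3F.exF F k s).d ω (Fin.last m) = F.d ω k / 2 ^ s :=
    fun ω => sn_last _ _
  have hev : ∀ (v : LV) (b : Option (Fin (m + 1)) → ℝ),
      eval b (C (1 / 2 ^ s) * rename (vx m) (G v)) = eval (b ∘ vx m) (G v) / 2 ^ s := by
    intro v b
    rw [map_mul, eval_C, eval_rename]
    ring
  have hpv : ∀ (v : LV) (o : Option (Fin m)) (b : Option (Fin (m + 1)) → ℝ),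
      eval b (pderiv (vx m o) (C (1 / 2 ^ s) * rename (vx m) (G v))) =
        eval (b ∘ vx m) (pderiv o (G v)) / 2 ^ s := by
    intro v o b
    rw [pderiv_C_mul, map_mul, eval_C, pderiv_rename (vx_inj m), eval_rename]
    ring
  have hpl : ∀ (v : LV) (b : Option (Fin (m + 1)) → ℝ),
      eval b (pderiv (some (Fin.last m)) (C (1 / 2 ^ s) * rename (vx m) (G v))) = 0 := by
    intro v b
    rw [pderiv_C_mul, pd_ren_last, mul_zero, map_zero]
  have hb : ∀ ω : F.Ω, bt (Pool.M3F.exF F k s) ω ∘ vx m = bt F ω := fun ω => bt_vx F k s ω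
  have hrP : ∀ ω : F.Ω, rP F k s (ptr (Pool.M3F.exF F k s) J ω) = ptr F J ω := fun ω => by
    rw [exF_ptr, rP_eP]
  have hrL : ∀ ω : F.Ω, rL F k s (slam (Pool.M3F.exF F k s) w ω) = slam F w ω := fun ω => by
    rw [exF_slam, rL_eL]
  refine ⟨LV, fun ξ => z (rP F k s ξ), fun t => z' (rL F k s t),
    fun v => C (1 / 2 ^ s) * rename (vx m) (G v), ?_, ?_, ?_, ?_, ?_, ?_⟩
  · intro v
    refine (totalDegree_mul _ _).trans ?_
    rw [totalDegree_C, zero_add]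
    exact (totalDegree_rename_le _ _).trans (hdeg v)
  · intro v b b' h0 hI
    rw [hev, hev, hdep v (b ∘ vx m) (b' ∘ vx m) h0 fun i hi =>
      hI (Fin.castSucc i) (Finset.mem_map.2 ⟨i, hi, rfl⟩)]
  · intro (ω : F.Ω) (hω : B ω)
    show z (rP F k s (ptr (Pool.M3F.exF F k s) J ω)) =
      z' (rL F k s (slam (Pool.M3F.exF F k s) w ω))
    rw [hrP, hrL]
    exact hcls ω hω
  · intro (ω : F.Ω) (hω : B ω)
    show |(Pool.M3F.exF F k s).x ω (Fin.last m) - eval (bt (Pool.M3F.exF F k s) ω)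
      (C (1 / 2 ^ s) * rename (vx m) (G (z' (rL F k s (slam (Pool.M3F.exF F k s) w ω)))))| ≤ _
    rw [hx, hrL, hev, hb, ← sub_div, abs_div, abs_of_pos h2s]
    exact (div_le_div_of_nonneg_right (hpos ω hω) h2s.le).trans hY
  · intro (ω : F.Ω) (hω : B ω)
    show |(Pool.M3F.exF F k s).d ω (Fin.last m) - ∑ o, bd (Pool.M3F.exF F k s) ω o *
      eval (bt (Pool.M3F.exF F k s) ω) (pderiv o (C (1 / 2 ^ s) * rename (vx m)
        (G (z' (rL F k s (slam (Pool.M3F.exF F k s) w ω))))))| ≤ _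
    rw [hd, hrL]
    have h1 : ∑ o, bd (Pool.M3F.exF F k s) ω o * eval (bt (Pool.M3F.exF F k s) ω)
        (pderiv o (C (1 / 2 ^ s) * rename (vx m) (G (z' (slam F w ω))))) =
        (∑ o, bd F ω o * eval (bt F ω) (pderiv o (G (z' (slam F w ω))))) / 2 ^ s := by
      rw [Fintype.sum_option, Fin.sum_univ_castSucc, Fintype.sum_option, hpl, mul_zero, add_zero,
        add_div, Finset.sum_div]
      have h2 := hpv (z' (slam F w ω)) none (bt (Pool.M3F.exF F k s) ω)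
      have e0 : vx m none = none := rfl
      rw [e0, hb] at h2
      rw [h2]
      congr 1
      · show 1 * _ = 1 * _ / 2 ^ s
        ring
      · refine Finset.sum_congr rfl fun i _ => ?_
        have h3 := hpv (z' (slam F w ω)) (some i) (bt (Pool.M3F.exF F k s) ω)
        have e1 : vx m (some i) = some (Fin.castSucc i) := rfl
        rw [e1, hb] at h3
        rw [h3]
        have e2 : bd (Pool.M3F.exF F k s) ω (some (Fin.castSucc i)) = bd F ω (some i) :=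
          sn_cs _ _ i
        rw [e2, mul_div_assoc]
    rw [h1, ← sub_div, abs_div, abs_of_pos h2s]
    have h2 : Y * 2 ^ w / 2 ^ s = Y / 2 ^ s * 2 ^ w := by ring
    refine (div_le_div_of_nonneg_right (hvel ω hω) h2s.le).trans ?_
    rw [h2]
    refine (mul_le_mul_of_nonneg_right hY (by positivity)).trans (le_of_eq ?_)
    ring
  · intro (ω : F.Ω) (hω : B ω) b hbb o
    show |eval b (pderiv o (C (1 / 2 ^ s) * rename (vx m)
      (G (z' (rL F k s (slam (Pool.M3F.exF F k s) w ω))))))| ≤ _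
    rw [hrL]
    have hball : ∀ o, |(b ∘ vx m) o - bt F ω o| ≤ 1 / 2 ^ qr := by
      intro o
      rw [← hb ω]
      exact hbb (vx m o)
    have hin : ∀ o : Option (Fin m), |eval b (pderiv (vx m o) (C (1 / 2 ^ s) * rename (vx m)
        (G (z' (slam F w ω)))))| ≤ 2 ^ E := by
      intro o
      rw [hpv, abs_div, abs_of_pos h2s]
      exact (div_le_div_of_nonneg_right (hlip ω hω _ hball o) h2s.le).trans hY'
    rcases o with _ | i
    · exact hin none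
    · refine Fin.lastCases ?_ (fun i => ?_) i
      · rw [hpl, abs_zero]
        positivity
      · exact hin (some i)

/-- **The number of the additional coordinate, from below.** -/
theorem num_tgr {S : PCl m} (hne : S.Ne) {C₀ : ℝ} (htm : TmC S C₀) {c : ℕ → Fin m} {r : ℕ}
    (hc : Set.InjOn c (Set.Iio (r + 1))) {P₀ w sg s W r' : ℝ}
    {L : Finset (Fin (m + 1)) → Fin (m + 1) → ℝ → ℝ → ℝ} (hT : Pool.JTN.TgP S c r P₀ w w sg)
    (hL : LamW (exC S (c r) s) L) (_hsg : sg < 1) (hs : sg ≤ P₀ + s)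
    (hs1 : P₀ + s ≤ 1) (hw0 : 0 ≤ w) (hwP : w ≤ P₀ + s) (hwW : w < W)
    (hr : sg < r') (hr1 : r' ≤ 1) (hwr : w < r') :
    P₀ + s ≤ L (((range r).image c).map Fin.castSuccEmb) (Fin.last m) W r' := by
  classical
  by_contra hcon
  push Not at hcon
  obtain ⟨h, hh⟩ : ∃ h : ℝ, h = (L (((range r).image c).map Fin.castSuccEmb) (Fin.last m) W r' +
    (P₀ + s)) / 2 := ⟨_, rfl⟩
  have hh1 : L (((range r).image c).map Fin.castSuccEmb) (Fin.last m) W r' < h := by linarith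
  have hh2 : h < P₀ + s := by linarith
  obtain ⟨d, hd, hWd, habs⟩ := hL.abs _ _ W r' h hh1 (by linarith)
  have hW1 : W < 1 := by linarith
  have hh0 : 0 < h := by
    have := hL.low (((range r).image c).map Fin.castSuccEmb) (Fin.last m) W r' hW1.le
    linarith
  have hl2 : 0 < Real.log 2 := Real.log_pos one_lt_two
  -- the small numbers
  obtain ⟨η, hη⟩ : ∃ η : ℝ, η = min (d / 8) (min ((P₀ + s - h) / 4) (min ((r' - sg) / 4)
    ((r' - w) / 2))) := ⟨_, rfl⟩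
  have hη0 : 0 < η := by
    rw [hη]
    refine lt_min (by linarith) (lt_min (by linarith) (lt_min (by linarith) (by linarith)))
  have hη1 : η ≤ d / 8 := by rw [hη]; exact min_le_left _ _
  have hη2 : η ≤ (P₀ + s - h) / 4 := by
    rw [hη]; exact (min_le_right _ _).trans (min_le_left _ _)
  have hη3 : η ≤ (r' - sg) / 4 := by
    rw [hη]; exact (min_le_right _ _).trans ((min_le_right _ _).trans (min_le_left _ _))
  have hη4 : η ≤ (r' - w) / 2 := by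
    rw [hη]; exact (min_le_right _ _).trans ((min_le_right _ _).trans (min_le_right _ _))
  obtain ⟨K', K₁, hK₁, hTb⟩ := hT η hη0
  choose Zf Df hZf hmem using fun i => mem_nr m i K'
  obtain ⟨Z, hZ⟩ : ∃ Z : ℝ, Z = ∑ i ∈ range (r + 1), Zf i := ⟨_, rfl⟩
  obtain ⟨D, hD⟩ : ∃ D : ℕ, D = ∑ i ∈ range (r + 1), Df i := ⟨_, rfl⟩
  have hZi : ∀ i ≤ r, Zf i ≤ Z := fun i hi => by
    rw [hZ]
    exact Finset.single_le_sum (f := Zf) (fun j _ => by linarith [hZf j])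
      (mem_range.2 (by omega))
  have hDi : ∀ i ≤ r, Df i ≤ D := fun i hi => by
    rw [hD]
    exact Finset.single_le_sum (f := Df) (fun j _ => Nat.zero_le _) (mem_range.2 (by omega))
  have hZ1 : 1 ≤ Z := (hZf 0).trans (hZi 0 (Nat.zero_le _))
  obtain ⟨ψ, hψ, J₁, hX⟩ := num_X hZ1 hη0
  -- the statements of the class
  have b1 := Pool.GRW.bas_part (Pool.GRW.tms_bas htm hψ) (c := K₁ * Z) (by positivity)
  have b2 : Bas S (fun J F A => ∀ B : F.Ω → Prop, Sub B A → Pe F.p A ≤ K₁ * Z * Pe F.p B →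
      ¬ Lb (Pool.M3F.exF F (c r) ⌊s * J⌋₊) (((range r).image c).map Fin.castSuccEmb)
        (Fin.last m) D ⌊d * J⌋₊ J ⌊(W + d) * J⌋₊ ⌊(r' + d) * J⌋₊ ⌊h * J⌋₊ B) := by
    obtain ⟨τ, hτ, J₂, h2⟩ := Pool.GRW.bas_part (habs d le_rfl D) (c := K₁ * Z) (by positivity)
    exact ⟨τ, hτ, J₂, fun J hJ F A hA B hB hP =>
      h2 J hJ (Pool.EXTC.exF (c r) ⌊s * J⌋₊ F) A (exSt.mk J F A hA) B hB hP⟩
  have hTb' := hTb.and (b1.and b2)
  obtain ⟨τ, hτ, J₂, hall⟩ := hTb'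
  obtain ⟨J₃, hJ₃⟩ := exists_nat_ge (4 / η)
  obtain ⟨J, hJ, F, A, hA⟩ := hne τ hτ (max J₁ (max J₂ J₃))
  obtain ⟨hXJ, hZJ⟩ := hX J ((le_max_left _ _).trans hJ)
  obtain ⟨⟨B, c', i, e', q, hBA, hPB, hir, hc', hcc, hcr, hch, hq, he⟩, htms, hno⟩ :=
    hall J (((le_max_left _ _).trans (le_max_right _ _)).trans hJ) F A hA
  have hJη : 4 ≤ η * J := by
    have h1 : (J₃ : ℝ) ≤ J := by
      exact_mod_cast ((le_max_right _ _).trans (le_max_right _ _)).trans hJ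
    have h2 := hJ₃.trans h1
    rw [div_le_iff₀ hη0] at h2
    linarith
  have hJ0 : (0 : ℝ) ≤ J := Nat.cast_nonneg J
  -- the mass
  have hP0 : ∀ B' : F.Ω → Prop, Sub B' B → Pe F.p B ≤ Z * Pe F.p B' →
      Sub B' A ∧ Pe F.p A ≤ K₁ * Z * Pe F.p B' := by
    intro B' hB' hP'
    refine ⟨fun ω hω => hBA ω (hB' ω hω), ?_⟩
    calc Pe F.p A ≤ K₁ * Pe F.p B := hPB
      _ ≤ K₁ * (Z * Pe F.p B') := mul_le_mul_of_nonneg_left hP' hK₁.le
      _ = _ := by ring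
  have hBB : Pe F.p B ≤ Z * Pe F.p B :=
    le_mul_of_one_le_left (Pe_nonneg F.isLaw _) hZ1
  have hB0 : 0 < Pe F.p B := by
    obtain ⟨h1, h2⟩ := hP0 B (fun _ h => h) hBB
    exact (htms B h1 h2).choose
  -- the chain
  have hinj : Pool.STAT.CLO.Inj c' (i + 1) := by
    have key : ∀ l < i, c' l ≠ c' i := by
      intro l hl h1
      obtain ⟨j, hj, h2⟩ := hcc l hl
      rw [h2, hcr] at h1
      have h3 := hc (show j ∈ Set.Iio (r + 1) from by show j < r + 1; omega)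
        (show r ∈ Set.Iio (r + 1) from by show r < r + 1; omega) h1
      omega
    intro l hl l' hl' h1
    rcases Nat.lt_or_ge l i with h2 | h2 <;> rcases Nat.lt_or_ge l' i with h3 | h3
    · exact hc' h2 h3 h1
    · have : l' = i := by omega
      subst this
      exact absurd h1 (key l h2)
    · have : l = i := by omega
      subst this
      exact absurd h1.symm (key l' h3)
    · omega
  have hwJ : (⌊w * J⌋₊ : ℝ) ≤ w * J := Nat.floor_le (mul_nonneg hw0 hJ0)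
  obtain ⟨Gm, hGm⟩ : ∃ Gm, Gm = (Finset.Icc 0 i).sup q := ⟨_, rfl⟩
  have hGq : ∀ l ≤ i, q l ≤ Gm := fun l hl => by
    rw [hGm]
    exact Finset.le_sup (f := q) (Finset.mem_Icc.2 ⟨Nat.zero_le _, hl⟩)
  have heG : ((e' + Gm : ℕ) : ℝ) ≤ (sg + η) * J := by
    obtain ⟨l, hl, h1⟩ := Finset.exists_mem_eq_sup (Finset.Icc 0 i) ⟨0, by simp⟩ q
    rw [hGm, h1]
    exact he l (Finset.mem_Icc.1 hl).2
  obtain ⟨X, hXd⟩ : ∃ X : ℝ, X = Z * Real.exp (Z * (ψ * J + 1)) := ⟨_, rfl⟩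
  rw [← hXd] at hXJ
  have hψJ : 0 ≤ ψ * J := mul_nonneg hψ.le hJ0
  have hX0 : 0 ≤ X := by
    rw [hXd]
    exact mul_nonneg (by linarith) (Real.exp_pos _).le
  -- products with `J`
  have m3 := mul_le_mul_of_nonneg_right hη3 hJ0
  have m2 := mul_le_mul_of_nonneg_right hη2 hJ0
  have m1 := mul_le_mul_of_nonneg_right hη1 hJ0
  have m4 := mul_le_mul_of_nonneg_right hη4 hJ0
  have ms := mul_le_mul_of_nonneg_right hs hJ0
  have mw := mul_le_mul_of_nonneg_right hwP hJ0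
  have hsJ : s * J < (⌊s * (J : ℝ)⌋₊ : ℝ) + 1 := Nat.lt_floor_add_one _
  have hdJ : d * J < (⌊d * (J : ℝ)⌋₊ : ℝ) + 1 := Nat.lt_floor_add_one _
  have hsJ0 : (0 : ℝ) ≤ (⌊s * (J : ℝ)⌋₊ : ℝ) := Nat.cast_nonneg _
  have hrJ : r' * J < (⌊r' * (J : ℝ)⌋₊ : ℝ) + 1 := Nat.lt_floor_add_one _
  have hrJ1 : r' * J ≤ 1 * J := mul_le_mul_of_nonneg_right hr1 hJ0
  have hXG : X * 2 ^ (e' + Gm) ≤ 2 ^ ⌊r' * (J : ℝ)⌋₊ := by
    refine pw_le hXJ ?_
    linarith
  obtain ⟨z, z', G, B', hB'B, hPB', hdeg, hdep, hcls, hpos, hvel, hlip⟩ :=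
    hmem i J F c' ⌊w * J⌋₊ e' Gm ⌊r' * (J : ℝ)⌋₊ q B (ψ * J) X (fl_le (by linarith) J)
      (Nat.floor_le_floor (mul_le_mul_of_nonneg_right hwr.le hJ0)) hinj hch hGq hB0 hψJ
      (fun B' hB'0 hB'B hP' => by
        obtain ⟨h1, h2⟩ := hP0 B' hB'B (hP'.trans
          (mul_le_mul_of_nonneg_right (hZi i hir) (Pe_nonneg F.isLaw _)))
        exact (htms B' h1 h2).choose_spec)
      (by
        have h1 : Zf i * (ψ * J + 1) ≤ Z * (ψ * J + 1) :=
          mul_le_mul_of_nonneg_right (hZi i hir) (by linarith)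
        have h2 : η * J * Real.log 2 ≤ ((J : ℝ) - ⌊w * J⌋₊) * Real.log 2 := by
          refine mul_le_mul_of_nonneg_right ?_ hl2.le
          linarith
        linarith)
      (by
        rw [hXd]
        exact mul_le_mul (hZi i hir) (Real.exp_le_exp.2
          (mul_le_mul_of_nonneg_right (hZi i hir) (by linarith))) (Real.exp_pos _).le
          (by linarith)) hXG
  rw [hcr] at hpos hvel
  have hlb := lb_exr (F := F) (k := c r) (s := ⌊s * J⌋₊) (I := (range i).image c') (D := Df i)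
    (w := ⌊w * J⌋₊) (E := ⌊d * J⌋₊) (P := ⌊h * J⌋₊) z z' G hdeg hdep hcls hpos hvel hlip
    (by
      refine num_pos hXJ ?_
      have h1 : (⌊h * (J : ℝ)⌋₊ : ℝ) ≤ h * J := Nat.floor_le (mul_nonneg hh0.le hJ0)
      linarith)
    (by
      refine num_lip hX0 hXJ ?_ ?_ ?_
      · linarith
      · linarith
      · linarith)
  obtain ⟨h1, h2⟩ := hP0 B' hB'B (hPB'.trans
    (mul_le_mul_of_nonneg_right (hZi i hir) (Pe_nonneg F.isLaw _)))
  refine hno B' h1 h2 (hlb.mono ?_ (hDi i hir) le_rfl le_rfl ?_ ?_ ?_ le_rfl)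
  · refine Finset.map_subset_map.2 ?_
    intro k hk
    obtain ⟨l, hl, rfl⟩ := Finset.mem_image.1 hk
    obtain ⟨j, hj, h3⟩ := hcc l (mem_range.1 hl)
    rw [h3]
    exact Finset.mem_image_of_mem _ (mem_range.2 hj)
  · exact Nat.floor_le_floor (mul_le_mul_of_nonneg_right (by linarith) hJ0)
  · exact fl_le hWd J
  · exact Nat.floor_le_floor (mul_le_mul_of_nonneg_right (by linarith) hJ0)

end

end Pool.EXT96
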